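import Mathlib
import Pool.Agent.Lib.MP_507a1e_gt.E6Up

set_option autoImplicit false

namespace Pool.Agent.Results.MP_507a1e_gt.EveryOptimal

open Pool.Agent.Lib.MP_507a1e_gt

/-- Disproof of Q1 in the strongest form: there is a lattice L that has optimal weights and for
which every optimal weight has a most contracted point in the interior of the Voronoi cell. -/
theorem result : ∃ (n : ℕ) (L : Submodule ℤ (Euc n)), 1 ≤ n ∧ IsLattice L ∧
    (∃ z : dual L → ℝ, IsWeight L z ∧ IsOptimal L z) ∧
    ∀ z : dual L → ℝ, IsWeight L z → IsOptimal L z →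
      ∃ x ∈ interior (voronoi L), MostContracted L z x :=
  Ev.every

end Pool.Agent.Results.MP_507a1e_gt.EveryOptimal
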